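import Mathlib
import Pool.Agent.P.MP_49c4d9_an.R1.Main

set_option autoImplicit false

namespace Pool.Agent.Results.MP_49c4d9_an.RankOneReductive

section Defs

variable {H : Type} [NormedAddCommGroup H] [InnerProductSpace ℂ H] [CompleteSpace H]

/-- Every closed invariant subspace of `T` is invariant under the adjoint of `T`. -/
def IsReductive (T : H →L[ℂ] H) : Prop :=
  ∀ M : Submodule ℂ H, IsClosed (M : Set H) → (∀ x ∈ M, T x ∈ M) →
    ∀ x ∈ M, ContinuousLinearMap.adjoint T x ∈ M

/-- `T x = N x + ⟨v, x⟩ u` for a normal operator `N` and vectors `u`, `v`. -/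
def IsRankOnePerturbationOfNormal (T : H →L[ℂ] H) : Prop :=
  ∃ (N : H →L[ℂ] H) (u v : H), IsStarNormal N ∧ ∀ x, T x = N x + inner ℂ v x • u

/-- `T` is unitarily equivalent to the restriction to a reducing subspace of a rank-one
perturbation `S` of a normal operator on some Hilbert space `K`. -/
def IsSummandOfRankOnePerturbation (T : H →L[ℂ] H) : Prop :=
  ∃ (K : Type) (_ : NormedAddCommGroup K) (_ : InnerProductSpace ℂ K) (_ : CompleteSpace K)
    (V : H →ₗᵢ[ℂ] K) (S : K →L[ℂ] K), IsRankOnePerturbationOfNormal S ∧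
      (∀ x, S (V x) = V (T x)) ∧
      ∀ x, ContinuousLinearMap.adjoint S (V x) = V (ContinuousLinearMap.adjoint T x)

end Defs

/-- A reductive operator that is a rank-one perturbation of a normal operator, or an orthogonal
direct summand of such a perturbation, is normal. -/
theorem result (H : Type) [NormedAddCommGroup H] [InnerProductSpace ℂ H] [CompleteSpace H]
    (T : H →L[ℂ] H) (hT : IsRankOnePerturbationOfNormal T ∨ IsSummandOfRankOnePerturbation T)
    (hred : IsReductive T) : IsStarNormal T := by
  rcases hT with ⟨N, u, v, hN, hS⟩ | ⟨K, _, _, _, V, S, ⟨N, u, v, hN, hS⟩, h1, h2⟩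
  · exact Pool.Agent.P.MP_49c4d9_an.R1.normal_of_reductive_summand LinearIsometry.id hN hS
      (fun _ => rfl) (fun _ => rfl) hred
  · exact Pool.Agent.P.MP_49c4d9_an.R1.normal_of_reductive_summand V hN hS h1 h2 hred

end Pool.Agent.Results.MP_49c4d9_an.RankOneReductive
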