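import Pool.Agent.P.MP_49c4d9_an.SC.Op

set_option autoImplicit false

namespace Pool.Agent.P.MP_49c4d9_an.ShiftCommutantOld

/-- A reductive operator which commutes with an injective bilateral weighted shift is normal. -/
theorem result {H : Type*} [NormedAddCommGroup H] [InnerProductSpace ℂ H] [CompleteSpace H]
    (b : HilbertBasis ℤ ℂ H) (S : H →L[ℂ] H) (a : ℤ → ℂ) (ha : ∀ n, a n ≠ 0)
    (hS : ∀ n, S (b n) = a n • b (n + 1)) (T : H →L[ℂ] H) (hT : T * S = S * T)
    (hred : ∀ K : Submodule ℂ H, IsClosed (K : Set H) → (∀ x ∈ K, T x ∈ K) →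
      ∀ x ∈ K, ContinuousLinearMap.adjoint T x ∈ K) : IsStarNormal T :=
  Pool.Agent.P.MP_49c4d9_an.SC.main b S a ha hS T hT hred

end Pool.Agent.P.MP_49c4d9_an.ShiftCommutantOld
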