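import Pool.Agent.P.MP_49c4d9_an.WT.Main

/-!
Every reductive weighted composition operator `f ↦ w * (f ∘ τ)` on `L^2` of a standard probability
space, with `τ` measure preserving, `w` essentially bounded and `log |w|` integrable on the set
where `w` does not vanish, is normal.
-/

open MeasureTheory
open scoped ENNReal

namespace Pool.Agent.Results.MP_49c4d9_an.WeightedComposition

theorem result {X : Type*} [MeasurableSpace X] [StandardBorelSpace X]
    (μ : Measure X) [IsProbabilityMeasure μ]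
    (τ : X → X) (hτ : MeasurePreserving τ μ μ)
    (w : X → ℂ) (hw : MemLp w ∞ μ)
    (hlog : IntegrableOn (fun x => Real.log ‖w x‖) {x | w x ≠ 0} μ) :
    ∃ T : Lp ℂ 2 μ →L[ℂ] Lp ℂ 2 μ, (∀ f, T f =ᵐ[μ] fun x => w x * f (τ x)) ∧
      ((∀ K : Submodule ℂ (Lp ℂ 2 μ), IsClosed (K : Set (Lp ℂ 2 μ)) → (∀ f ∈ K, T f ∈ K) →
        ∀ f ∈ K, ContinuousLinearMap.adjoint T f ∈ K) → IsStarNormal T) :=
  Pool.Agent.P.MP_49c4d9_an.WT.main μ τ hτ w hw hlog

end Pool.Agent.Results.MP_49c4d9_an.WeightedComposition
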